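import Pool.Agent.N356.SP.DefsK
import Pool.Agent.N878.LK.Mantel

/-!
# Project LK, part GK2: bound of the number of zero-sum quadruples by Mantel's theorem

(helper717, for helper356)
-/

set_option autoImplicit false

namespace Pool.Agent.N717.LK

open Finset Pool.Agent.H384R3.SPk Pool.Agent.N356.SP

section

variable {Γ : Type*} [AddCommGroup Γ]

open Classical in
/-- the product of the multiplicities of a crossing pair -/
noncomputable def gg (m : Γ → ℝ) (p : Γ × Γ) : ℝ :=
  if p.2 ≠ p.1 ∧ p.2 ≠ -p.1 then m p.1 * m p.2 else 0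

open Classical in
/-- weighted number of the crossing pairs with sum `r` -/
noncomputable def NN (C : Finset Γ) (m : Γ → ℝ) (r : Γ) : ℝ :=
  ∑ p ∈ C ×ˢ C, if p.1 + p.2 = r then gg m p else 0

open Classical in
/-- the sums of two elements -/
noncomputable def RR (C : Finset Γ) : Finset Γ := (C ×ˢ C).image fun p => p.1 + p.2

lemma gg_nonneg {m : Γ → ℝ} (hm : ∀ v, 0 ≤ m v) (p : Γ × Γ) : 0 ≤ gg m p := by
  unfold gg
  split_ifs
  · exact mul_nonneg (hm _) (hm _)
  · exact le_rfl

lemma NN_nonneg {C : Finset Γ} {m : Γ → ℝ} (hm : ∀ v, 0 ≤ m v) (r : Γ) : 0 ≤ NN C m r := by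
  unfold NN
  refine Finset.sum_nonneg fun p _ => ?_
  split_ifs
  · exact gg_nonneg hm p
  · exact le_rfl

lemma sum_NN (C : Finset Γ) (m F : Γ → ℝ) :
    ∑ r ∈ RR C, NN C m r * F r = ∑ p ∈ C ×ˢ C, gg m p * F (p.1 + p.2) := by
  classical
  unfold NN
  simp_rw [Finset.sum_mul]
  rw [Finset.sum_comm]
  refine Finset.sum_congr rfl fun p hp => ?_
  rw [Finset.sum_eq_single (p.1 + p.2)]
  · rw [if_pos rfl]
  · intro r _ hr
    rw [if_neg (Ne.symm hr), zero_mul]
  · intro h
    exact absurd (mem_image_of_mem _ hp) h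

lemma mQ_eq (C : Finset Γ) (m : Γ → ℝ) :
    mQ C m = ∑ p ∈ C ×ˢ C, gg m p * NN C m (-(p.1 + p.2)) := by
  unfold mQ
  rw [Finset.sum_product]
  refine Finset.sum_congr rfl fun s _ => Finset.sum_congr rfl fun t _ => ?_
  unfold NN
  rw [Finset.sum_product, Finset.mul_sum]
  refine Finset.sum_congr rfl fun u _ => ?_
  rw [Finset.mul_sum]
  refine Finset.sum_congr rfl fun v _ => ?_
  have e : (s + t + u + v = 0) ↔ (u + v = -(s + t)) := by
    rw [add_assoc (s + t), add_comm (s + t), ← eq_neg_iff_add_eq_zero]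
  unfold gg
  dsimp only
  by_cases h1 : s + t + u + v = 0
  · by_cases h2 : t ≠ s ∧ t ≠ -s
    · by_cases h3 : v ≠ u ∧ v ≠ -u
      · rw [if_pos ⟨h1, h2.1, h2.2, h3.1, h3.2⟩, if_pos h2, if_pos (e.mp h1), if_pos h3]
        ring
      · rw [if_neg (fun h => h3 ⟨h.2.2.2.1, h.2.2.2.2⟩), if_pos (e.mp h1), if_neg h3, mul_zero]
    · rw [if_neg (fun h => h2 ⟨h.2.1, h.2.2.1⟩), if_neg h2, zero_mul]
  · rw [if_neg (fun h => h1 h.1), if_neg (fun h => h1 (e.mpr h)), mul_zero]

lemma sum_flip {C : Finset Γ} (hneg : ∀ s ∈ C, -s ∈ C) (F : Γ → ℝ) :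
    ∑ v ∈ C, F (-v) = ∑ v ∈ C, F v := by
  refine Finset.sum_nbij' (fun v => -v) (fun v => -v) (fun v hv => hneg v hv)
    (fun v hv => hneg v hv) (fun v _ => neg_neg v) (fun v _ => neg_neg v) fun v _ => rfl

lemma mP_eq {C : Finset Γ} (hneg : ∀ s ∈ C, -s ∈ C) (hne : ∀ s ∈ C, s ≠ -s) (m : Γ → ℝ) :
    mP C m = ∑ p ∈ C ×ˢ C, gg m p := by
  classical
  have h1 : ∀ s ∈ C, ∑ t ∈ C, gg m (s, t) = ∑ t ∈ C, m s * m t - m s * m s - m s * m (-s) := by
    intro s hs
    have h2 : ∀ t ∈ C, gg m (s, t) = m s * m t - (if t = s then m s * m t else 0) -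
        (if t = -s then m s * m t else 0) := by
      intro t _
      unfold gg
      dsimp only
      by_cases h3 : t = s
      · have h4 : t ≠ -s := by
          rw [h3]
          exact hne s hs
        rw [if_neg (fun h => h.1 h3), if_pos h3, if_neg h4]
        ring
      · by_cases h4 : t = -s
        · rw [if_neg (fun h => h.2 h4), if_neg h3, if_pos h4]
          ring
        · rw [if_pos ⟨h3, h4⟩, if_neg h3, if_neg h4]
          ring
    rw [Finset.sum_congr rfl h2, Finset.sum_sub_distrib, Finset.sum_sub_distrib,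
      Finset.sum_ite_eq', Finset.sum_ite_eq', if_pos hs, if_pos (hneg s hs)]
  rw [Finset.sum_product, Finset.sum_congr rfl h1, Finset.sum_sub_distrib,
    Finset.sum_sub_distrib, ← Finset.sum_mul_sum]
  unfold mP
  have h5 : ∑ v ∈ C, (m v + m (-v)) ^ 2 =
      2 * ∑ v ∈ C, m v * m v + 2 * ∑ v ∈ C, m v * m (-v) := by
    have h6 : ∑ v ∈ C, m (-v) * m (-v) = ∑ v ∈ C, m v * m v :=
      sum_flip hneg fun v => m v * m v
    have h7 : ∑ v ∈ C, (m v + m (-v)) ^ 2 = ∑ v ∈ C, m v * m v + 2 * ∑ v ∈ C, m v * m (-v) +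
        ∑ v ∈ C, m (-v) * m (-v) := by
      rw [Finset.mul_sum, ← Finset.sum_add_distrib, ← Finset.sum_add_distrib]
      exact Finset.sum_congr rfl fun v _ => by ring
    rw [h7, h6]
    ring
  rw [h5]
  ring

lemma PD_eq (C : Finset Γ) (m : Γ → ℝ) :
    mP C m + mD C m = (∑ v ∈ C, m v) ^ 2 - 2 * mS C m := by
  unfold mP mD mS
  have h1 : ∑ v ∈ C, (m v + m (-v)) ^ 2 - ∑ v ∈ C, (m v - m (-v)) ^ 2 =
      4 * ∑ v ∈ C, m v * m (-v) := by
    rw [← Finset.sum_sub_distrib, Finset.mul_sum]
    exact Finset.sum_congr rfl fun v _ => by ring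
  linarith

lemma RR_neg {C : Finset Γ} (hneg : ∀ s ∈ C, -s ∈ C) : ∀ r ∈ RR C, -r ∈ RR C := by
  classical
  intro r hr
  unfold RR at hr ⊢
  rw [mem_image] at hr ⊢
  obtain ⟨p, hp, rfl⟩ := hr
  rw [mem_product] at hp
  exact ⟨(-p.1, -p.2), mem_product.mpr ⟨hneg _ hp.1, hneg _ hp.2⟩, by
    show -p.1 + -p.2 = -(p.1 + p.2)
    abel⟩

end

/-- **(GK2)** the number of the zero-sum quadruples -/
theorem mQ_le {Γ : Type*} [AddCommGroup Γ]
    {C : Finset Γ} {θ : Γ → Γ → ℝ} (h : GoodC C θ) (m : Γ → ℝ) (hm : ∀ v, 0 ≤ m v) :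
    mQ C m ≤ 1 / 4 * (mP C m + mD C m) * mP C m := by
  classical
  set D : ℝ := (mP C m + mD C m) / 2 with hD
  have hkey : ∀ r : Γ, NN C m r * NN C m (-r) ≤ D / 4 * (NN C m r + NN C m (-r)) := by
    intro r
    by_cases hr : r = 0 ∨ r = -r
    · have h1 : NN C m r = 0 := by
        unfold NN
        refine Finset.sum_eq_zero fun p hp => ?_
        rw [mem_product] at hp
        split_ifs with h2
        · unfold gg
          rw [if_neg]
          rintro ⟨-, h3⟩
          apply h3
          have h4 : p.1 + p.2 = 0 := by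
            rcases hr with hr | hr
            · rw [h2, hr]
            · refine h.two _ hp.1 _ hp.2 ?_
              rw [h2]
              exact hr
          exact eq_neg_of_add_eq_zero_right h4
        · rfl
      have h2 : -r = r := by
        rcases hr with hr | hr
        · rw [hr, neg_zero]
        · exact hr.symm
      rw [h2, h1]
      simp
    · push Not at hr
      obtain ⟨hr0, hr1⟩ := hr
      have h1 := Pool.Agent.N878.LK.mantel (C := C) h.ne m hm r
      have h2 : (∑ s ∈ C, ∑ t ∈ C,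
          if s ≠ t ∧ (s + t = 0 ∨ s + t = r ∨ s + t = -r) then m s * m t else 0) =
          mS C m + NN C m r + NN C m (-r) := by
        unfold NN mS
        rw [Finset.sum_product, Finset.sum_product, ← Finset.sum_add_distrib,
          ← Finset.sum_add_distrib]
        refine Finset.sum_congr rfl fun s hs => ?_
        have h3 : m s * m (-s) = ∑ t ∈ C, if t = -s then m s * m t else 0 := by
          rw [Finset.sum_ite_eq', if_pos (h.neg s hs)]
        rw [h3, ← Finset.sum_add_distrib, ← Finset.sum_add_distrib]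
        refine Finset.sum_congr rfl fun t _ => ?_
        unfold gg
        dsimp only
        by_cases h4 : s + t = 0
        · have h5 : t = -s := eq_neg_of_add_eq_zero_right h4
          have h6 : s ≠ t := by
            rw [h5]
            exact h.ne s hs
          have h7 : ¬ s + t = r := by
            rw [h4]
            exact fun h8 => hr0 h8.symm
          have h8 : ¬ s + t = -r := by
            rw [h4]
            exact fun h9 => hr0 (neg_eq_zero.mp h9.symm)
          rw [if_pos ⟨h6, Or.inl h4⟩, if_pos h5, if_neg h7, if_neg h8]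
          ring
        · have h5 : ¬ t = -s := by
            intro h6
            apply h4
            rw [h6, add_neg_cancel]
          rw [if_neg h5]
          by_cases h6 : s + t = r
          · have h7 : ¬ s + t = -r := by
              rw [h6]
              exact hr1
            rw [if_pos h6, if_neg h7]
            by_cases h8 : s = t
            · rw [if_neg (fun h9 => h9.1 h8), if_neg (fun h9 => h9.1 h8.symm)]
              ring
            · rw [if_pos ⟨h8, Or.inr (Or.inl h6)⟩, if_pos ⟨Ne.symm h8, h5⟩]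
              ring
          · rw [if_neg h6]
            by_cases h7 : s + t = -r
            · rw [if_pos h7]
              by_cases h8 : s = t
              · rw [if_neg (fun h9 => h9.1 h8), if_neg (fun h9 => h9.1 h8.symm)]
                ring
              · rw [if_pos ⟨h8, Or.inr (Or.inr h7)⟩, if_pos ⟨Ne.symm h8, h5⟩]
                ring
            · rw [if_neg h7, if_neg (fun h9 => h9.2.elim h4 fun h10 => h10.elim h6 h7)]
              ring
      have h3 := PD_eq C m
      have h4 : NN C m r + NN C m (-r) ≤ D := by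
        have h5 : mS C m + NN C m r + NN C m (-r) ≤ 1 / 2 * (∑ v ∈ C, m v) ^ 2 := by
          rw [← h2]
          convert h1
        rw [hD]
        linarith
      have h5 := NN_nonneg (C := C) hm r
      have h6 := NN_nonneg (C := C) hm (-r)
      nlinarith [sq_nonneg (NN C m r - NN C m (-r)), mul_nonneg (add_nonneg h5 h6)
        (sub_nonneg.mpr h4)]
  have hsum1 : ∑ r ∈ RR C, NN C m r = mP C m := by
    have h1 := sum_NN C m fun _ => 1
    simp only [mul_one] at h1
    rw [h1, mP_eq h.neg h.ne]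
  have hsum2 : ∑ r ∈ RR C, NN C m (-r) = mP C m := by
    rw [← hsum1]
    exact sum_flip (RR_neg h.neg) fun r => NN C m r
  have hQ : mQ C m = ∑ r ∈ RR C, NN C m r * NN C m (-r) := by
    rw [mQ_eq, sum_NN C m fun r => NN C m (-r)]
  rw [hQ]
  calc ∑ r ∈ RR C, NN C m r * NN C m (-r)
      ≤ ∑ r ∈ RR C, D / 4 * (NN C m r + NN C m (-r)) := Finset.sum_le_sum fun r _ => hkey r
    _ = D / 4 * (mP C m + mP C m) := by
        rw [← Finset.mul_sum, Finset.sum_add_distrib, hsum1, hsum2]
    _ = 1 / 4 * (mP C m + mD C m) * mP C m := by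
        rw [hD]
        ring

end Pool.Agent.N717.LK
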